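import Pool.Agent.V1115.SC.Mono

/-!
# André's supercharacter theory is the coarsest one keeping the single box characters irreducible

Let `F` be a finite field and `U = U_n(F)` the group of upper unitriangular matrices. If a
supercharacter theory `(X, K)` of `U` contains all single box characters as irreducible characters,
then every member of `K` is contained in a superclass of André's theory, i.e. `(X, K)` is finer than
(or equal to) André's theory. Hence André's theory is the coarsest such theory, for all `n` and `F`.
-/

open Pool.Agent.V1115.SC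

namespace Pool.Agent.Results.MP_1f99fc_al.AndreCoarsest

theorem result (n : ℕ) (hn : 2 ≤ n) (F : Type) [Field F] [Finite F]
    (θ : AddChar F ℂ) (hθ : θ ≠ 1)
    (X : Set (Set (U n F → ℂ))) (K : Set (Set (U n F)))
    (hXK : IsSupercharacterTheory X K)
    (hbox : ∀ i j : Fin n, i < j → ∀ a : F, a ≠ 0 →
      ∃ c : ℝ, 0 < c ∧ {fun g : U n F => (c : ℂ) * orbitSum θ (box i j a) g} ∈ X) :
    ∀ C ∈ K, ∃ x : U n F, C ⊆ superclass x := by
  intro C hC
  obtain ⟨x, hx⟩ : C.Nonempty := by
    rw [Set.nonempty_iff_ne_empty]
    intro h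
    rw [h] at hC
    exact hXK.K_part.1 hC
  refine ⟨x, fun g hg => ?_⟩
  have key : ∀ i j : Fin n, i < j → ∀ a : F, a ≠ 0 →
      S θ (box i j a) ⟨(g.1 : Matrix (Fin n) (Fin n) F) - 1, g.2⟩ =
        S θ (box i j a) ⟨(x.1 : Matrix (Fin n) (Fin n) F) - 1, x.2⟩ := by
    intro i j hij a ha
    obtain ⟨c, hc, hcX⟩ := hbox i j hij a ha
    have h1 := hXK.const _ hcX C hC g hg x hx
    rw [finsum_mem_singleton, finsum_mem_singleton] at h1
    rw [← orbitSum_eq, ← orbitSum_eq]
    have hc0 : (c : ℂ) ≠ 0 := by exact_mod_cast hc.ne'
    obtain ⟨V, _, _, _, ρ, hρ, hχ⟩ := (hXK.X_sub _ hcX).2 _ rfl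
    have h2 : (c : ℂ) * orbitSum θ (box i j a) (1 : U n F) ≠ 0 := by
      have h3 : (c : ℂ) * orbitSum θ (box i j a) (1 : U n F) = ρ.character 1 := congrFun hχ 1
      rw [h3, Representation.char_one]
      have hV : Nontrivial V := by
        by_contra hn
        rw [not_nontrivial_iff_subsingleton] at hn
        have : Subsingleton (Subrepresentation ρ) := by
          constructor
          intro a b
          ext x
          have : x = 0 := Subsingleton.elim _ _
          subst this
          simp
        have h5 := hρ.toNontrivial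
        exact not_subsingleton (Subrepresentation ρ) this
      exact_mod_cast (Module.finrank_pos (R := ℂ) (M := V)).ne'
    exact mul_left_cancel₀ hc0 (mul_left_cancel₀ h2 h1)
  obtain ⟨u, v, huv⟩ := separate θ hθ key
  exact ⟨u, v, congrArg Subtype.val huv⟩

end Pool.Agent.Results.MP_1f99fc_al.AndreCoarsest
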